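import Pool.Agent.TH835.Cor.Main

set_option autoImplicit false

/-!
# Corner-free sets with labelled cells: one cell and the sum over the cells
-/

namespace Pool.Agent.TH513.Cor

open Finset Pool.Agent.TH835.Cor

/-- one cell: the bound of helper835 (ThreePartyRank) for one function -/
lemma one_cell {n S r : ℕ} {K : Type} [Field K] [CharP K 2] (B : Finset (V n × V n))
    (hB : CornerFree B) (u v : Fin S → Fin r → V n → K) (w : Fin S → V n → K)
    (h : ∀ x y, (x, y) ∈ B ↔ ∑ i, (∑ j, u i j x * v i j y) * w i (x + y) ≠ 0) :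
    (B.card : ℝ) ≤ S * (2 * r + 1) * (54 : ℝ) ^ ((n : ℝ) / 3) := by
  classical
  have h2 := rank_bound B hB u v w h (2 * n / 3)
  set M := (univ.filter fun B : Finset (Fin n) => B.card ≤ n / 3).card with hM
  have h3 : (univ.filter fun B : Finset (Fin n) => 2 * n / 3 < B.card).card ≤ M :=
    large_sets (n / 3) (2 * n / 3) (by omega)
  have h4 : (univ.filter fun B : Finset (Fin n) => B.card ≤ 2 * n / 3 / 2).card ≤ M := by
    refine Finset.card_le_card fun C hC => ?_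
    rw [mem_filter] at hC ⊢
    refine ⟨hC.1, ?_⟩
    have := hC.2
    omega
  have h5 : B.card ≤ S * 2 ^ n * (M + 2 * r * M) := by
    refine h2.trans (Nat.mul_le_mul_left _ ?_)
    exact Nat.add_le_add h3 (Nat.mul_le_mul_left _ h4)
  have h6 : (M : ℝ) ≤ (27 / 4 : ℝ) ^ ((n : ℝ) / 3) := by
    have h7 : (M : ℝ) ^ 3 ≤ (27 / 4 : ℝ) ^ n := small_sets (n / 3) (by omega)
    have h8 : ((27 / 4 : ℝ) ^ ((n : ℝ) / 3)) ^ 3 = (27 / 4 : ℝ) ^ n := by
      rw [← Real.rpow_natCast, ← Real.rpow_mul (by norm_num)]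
      rw [show (n : ℝ) / 3 * ((3 : ℕ) : ℝ) = n by push_cast; ring, Real.rpow_natCast]
    rw [← h8] at h7
    exact le_of_pow_le_pow_left₀ (by norm_num) (by positivity) h7
  have h9 : (54 : ℝ) ^ ((n : ℝ) / 3) = 2 ^ n * (27 / 4 : ℝ) ^ ((n : ℝ) / 3) := by
    have : (2 : ℝ) ^ n = (8 : ℝ) ^ ((n : ℝ) / 3) := by
      rw [show (8 : ℝ) = (2 : ℝ) ^ (3 : ℝ) by norm_num, ← Real.rpow_mul (by norm_num),
        show (3 : ℝ) * ((n : ℝ) / 3) = n by ring, Real.rpow_natCast]
    rw [this, ← Real.mul_rpow (by norm_num) (by norm_num)]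
    norm_num
  have h10 : (B.card : ℝ) ≤ S * 2 ^ n * (M + 2 * r * M) := by exact_mod_cast h5
  refine h10.trans ?_
  rw [h9]
  have : (S : ℝ) * 2 ^ n * (M + 2 * r * M) = (S * (2 * r + 1) * 2 ^ n) * M := by ring
  rw [this]
  calc ((S : ℝ) * (2 * r + 1) * 2 ^ n) * M ≤
      (S * (2 * r + 1) * 2 ^ n) * (27 / 4 : ℝ) ^ ((n : ℝ) / 3) :=
        mul_le_mul_of_nonneg_left h6 (by positivity)
    _ = _ := by ring

/-- Loomis–Whitney (three labels, pairs of labels) -/
lemma lw (P Q R : Finset ℕ) (x y z : ℕ → ℕ → ℝ) :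
    (∑ p ∈ P, ∑ q ∈ Q, ∑ r ∈ R, x p q * y p r * z q r) ^ 2 ≤
      (∑ p ∈ P, ∑ q ∈ Q, x p q ^ 2) * (∑ p ∈ P, ∑ r ∈ R, y p r ^ 2) *
        (∑ q ∈ Q, ∑ r ∈ R, z q r ^ 2) := by
  have e1 : (∑ p ∈ P, ∑ q ∈ Q, ∑ r ∈ R, x p q * y p r * z q r) =
      ∑ t ∈ Q ×ˢ R, z t.1 t.2 * ∑ p ∈ P, x p t.1 * y p t.2 := by
    rw [Finset.sum_product]
    rw [Finset.sum_comm]
    refine Finset.sum_congr rfl fun q _ => ?_
    rw [Finset.sum_comm]
    refine Finset.sum_congr rfl fun r _ => ?_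
    rw [Finset.mul_sum]
    refine Finset.sum_congr rfl fun p _ => ?_
    ring
  rw [e1]
  refine (Finset.sum_mul_sq_le_sq_mul_sq _ _ _).trans ?_
  have e2 : ∑ t ∈ Q ×ˢ R, z t.1 t.2 ^ 2 = ∑ q ∈ Q, ∑ r ∈ R, z q r ^ 2 := Finset.sum_product _ _ _
  have e3 : ∑ t ∈ Q ×ˢ R, (∑ p ∈ P, x p t.1 * y p t.2) ^ 2 ≤
      (∑ p ∈ P, ∑ q ∈ Q, x p q ^ 2) * (∑ p ∈ P, ∑ r ∈ R, y p r ^ 2) := by
    calc ∑ t ∈ Q ×ˢ R, (∑ p ∈ P, x p t.1 * y p t.2) ^ 2
        ≤ ∑ t ∈ Q ×ˢ R, (∑ p ∈ P, x p t.1 ^ 2) * (∑ p ∈ P, y p t.2 ^ 2) :=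
          Finset.sum_le_sum fun t _ => Finset.sum_mul_sq_le_sq_mul_sq _ _ _
      _ = (∑ q ∈ Q, ∑ p ∈ P, x p q ^ 2) * (∑ r ∈ R, ∑ p ∈ P, y p r ^ 2) := by
          rw [Finset.sum_product, Finset.sum_mul_sum]
      _ = _ := by
          rw [Finset.sum_comm (s := Q) (t := P), Finset.sum_comm (s := R) (t := P)]
  rw [e2, mul_comm]
  refine mul_le_mul_of_nonneg_right e3 ?_
  exact Finset.sum_nonneg fun q _ => Finset.sum_nonneg fun r _ => sq_nonneg _

/-- the cells of a labelled set -/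
theorem cells {n : ℕ} (G : Finset (V n × V n)) (a b a' c b' c' : V n → ℕ) (m : ℝ) (hm : 0 ≤ m)
    (hmatch : ∀ x y, (x, y) ∈ G → a x = a' y ∧ b x = b' (x + y) ∧ c y = c' (x + y))
    (hcell : ∀ p q r : ℕ, ((G.filter fun t => a t.1 = p ∧ b t.1 = q ∧ c t.2 = r).card : ℝ) ≤
      m ^ 4) : (G.card : ℝ) ^ 2 ≤ m ^ 2 * 8 ^ n := by
  classical
  set P := univ.image a with hP
  set Q := univ.image b with hQ
  set R := univ.image c with hR
  set B : ℕ → ℕ → ℕ → Finset (V n × V n) := fun p q r =>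
    G.filter fun t => a t.1 = p ∧ b t.1 = q ∧ c t.2 = r with hBdef
  set X : ℕ → ℕ → Finset (V n) := fun p q => univ.filter fun x => a x = p ∧ b x = q with hX
  set Y : ℕ → ℕ → Finset (V n) := fun p r => univ.filter fun y => a' y = p ∧ c y = r with hY
  set Z : ℕ → ℕ → Finset (V n) := fun q r => univ.filter fun s => b' s = q ∧ c' s = r with hZ
  -- sums of class sizes
  have hsum : ∀ (u v : V n → ℕ) (U W : Finset ℕ),
      (∑ p ∈ U, ∑ q ∈ W, ((univ.filter fun x => u x = p ∧ v x = q).card : ℝ)) ≤ 2 ^ n := by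
    intro u v U W
    have h1 : ∑ t ∈ U ×ˢ W, (univ.filter fun x : V n => u x = t.1 ∧ v x = t.2).card ≤ 2 ^ n := by
      have h2 : ∑ t ∈ U ×ˢ W, (univ.filter fun x : V n => u x = t.1 ∧ v x = t.2).card =
          ((U ×ˢ W).biUnion fun t => univ.filter fun x : V n => u x = t.1 ∧ v x = t.2).card := by
        rw [Finset.card_biUnion]
        intro t _ t' _ htt
        rw [Function.onFun, Finset.disjoint_left]
        intro x hx hx'
        rw [mem_filter] at hx hx'
        apply htt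
        rw [Prod.ext_iff]
        exact ⟨hx.2.1.symm.trans hx'.2.1, hx.2.2.symm.trans hx'.2.2⟩
      rw [h2]
      refine (Finset.card_le_univ _).trans ?_
      rw [Fintype.card_fun, ZMod.card, Fintype.card_fin]
    rw [← Finset.sum_product']
    exact_mod_cast h1
  -- bound of a cell
  have hB : ∀ p q r, ((B p q r).card : ℝ) ≤
      m * (Real.sqrt (X p q).card * Real.sqrt (Y p r).card * Real.sqrt (Z q r).card) := by
    intro p q r
    have hXY : (B p q r).card ≤ (X p q).card * (Y p r).card := by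
      rw [← Finset.card_product]
      refine Finset.card_le_card fun t ht => ?_
      obtain ⟨h1, h2, h3, h4⟩ := mem_filter.1 ht
      obtain ⟨h5, h6, h7⟩ := hmatch t.1 t.2 h1
      rw [mem_product]
      exact ⟨mem_filter.2 ⟨mem_univ _, h2, h3⟩, mem_filter.2 ⟨mem_univ _, h5 ▸ h2, h4⟩⟩
    have hXZ : (B p q r).card ≤ (X p q).card * (Z q r).card := by
      rw [← Finset.card_product]
      refine Finset.card_le_card_of_injOn (fun t => (t.1, t.1 + t.2)) (fun t ht => ?_) ?_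
      · obtain ⟨h1, h2, h3, h4⟩ := mem_filter.1 ht
        obtain ⟨h5, h6, h7⟩ := hmatch t.1 t.2 h1
        rw [Finset.mem_coe, mem_product]
        exact ⟨mem_filter.2 ⟨mem_univ _, h2, h3⟩,
          mem_filter.2 ⟨mem_univ _, h6 ▸ h3, h7 ▸ h4⟩⟩
      · rintro ⟨x, y⟩ _ ⟨x', y'⟩ _ h
        simp only [Prod.mk.injEq] at h
        obtain ⟨h1, h2⟩ := h
        subst h1
        rw [add_right_inj] at h2
        rw [h2]
    have hYZ : (B p q r).card ≤ (Y p r).card * (Z q r).card := by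
      rw [← Finset.card_product]
      refine Finset.card_le_card_of_injOn (fun t => (t.2, t.1 + t.2)) (fun t ht => ?_) ?_
      · obtain ⟨h1, h2, h3, h4⟩ := mem_filter.1 ht
        obtain ⟨h5, h6, h7⟩ := hmatch t.1 t.2 h1
        rw [Finset.mem_coe, mem_product]
        exact ⟨mem_filter.2 ⟨mem_univ _, h5 ▸ h2, h4⟩,
          mem_filter.2 ⟨mem_univ _, h6 ▸ h3, h7 ▸ h4⟩⟩
      · rintro ⟨x, y⟩ _ ⟨x', y'⟩ _ h
        simp only [Prod.mk.injEq] at h
        obtain ⟨h1, h2⟩ := h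
        subst h1
        rw [add_left_inj] at h2
        rw [h2]
    have h1 : ((B p q r).card : ℝ) ≤ (X p q).card * (Y p r).card := by exact_mod_cast hXY
    have h2 : ((B p q r).card : ℝ) ≤ (X p q).card * (Z q r).card := by exact_mod_cast hXZ
    have h3 : ((B p q r).card : ℝ) ≤ (Y p r).card * (Z q r).card := by exact_mod_cast hYZ
    have h4 : ((B p q r).card : ℝ) ≤ m ^ 4 := hcell p q r
    have h0 : (0 : ℝ) ≤ (B p q r).card := Nat.cast_nonneg _
    refine le_of_pow_le_pow_left₀ (n := 4) (by norm_num) (by positivity) ?_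
    have e : (m * (Real.sqrt (X p q).card * Real.sqrt (Y p r).card * Real.sqrt (Z q r).card)) ^ 4 =
        m ^ 4 * ((X p q).card * (Y p r).card) * (((X p q).card * (Z q r).card) *
          ((Y p r).card * (Z q r).card)) := by
      have s1 : Real.sqrt (X p q).card ^ 4 = ((X p q).card : ℝ) ^ 2 := by
        rw [show (4 : ℕ) = 2 * 2 by norm_num, pow_mul, Real.sq_sqrt (Nat.cast_nonneg _)]
      have s2 : Real.sqrt (Y p r).card ^ 4 = ((Y p r).card : ℝ) ^ 2 := by
        rw [show (4 : ℕ) = 2 * 2 by norm_num, pow_mul, Real.sq_sqrt (Nat.cast_nonneg _)]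
      have s3 : Real.sqrt (Z q r).card ^ 4 = ((Z q r).card : ℝ) ^ 2 := by
        rw [show (4 : ℕ) = 2 * 2 by norm_num, pow_mul, Real.sq_sqrt (Nat.cast_nonneg _)]
      rw [mul_pow, mul_pow, mul_pow, s1, s2, s3]
      ring
    rw [e]
    calc ((B p q r).card : ℝ) ^ 4 = (B p q r).card * (B p q r).card *
          ((B p q r).card * (B p q r).card) := by ring
      _ ≤ m ^ 4 * ((X p q).card * (Y p r).card) * (((X p q).card * (Z q r).card) *
          ((Y p r).card * (Z q r).card)) := by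
          apply mul_le_mul
          · exact mul_le_mul h4 h1 h0 (by positivity)
          · exact mul_le_mul h2 h3 h0 (by positivity)
          · positivity
          · positivity
  -- the sum over the cells
  have hG : (G.card : ℝ) ≤ ∑ p ∈ P, ∑ q ∈ Q, ∑ r ∈ R, ((B p q r).card : ℝ) := by
    have h1 : G ⊆ P.biUnion fun p => Q.biUnion fun q => R.biUnion fun r => B p q r := by
      intro t ht
      simp only [mem_biUnion]
      exact ⟨a t.1, mem_image_of_mem _ (mem_univ _), b t.1, mem_image_of_mem _ (mem_univ _),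
        c t.2, mem_image_of_mem _ (mem_univ _), mem_filter.2 ⟨ht, rfl, rfl, rfl⟩⟩
    have h2 : G.card ≤ ∑ p ∈ P, ∑ q ∈ Q, ∑ r ∈ R, (B p q r).card := by
      refine (Finset.card_le_card h1).trans (Finset.card_biUnion_le.trans ?_)
      refine Finset.sum_le_sum fun p _ => Finset.card_biUnion_le.trans ?_
      exact Finset.sum_le_sum fun q _ => Finset.card_biUnion_le
    exact_mod_cast h2
  set T : ℝ := ∑ p ∈ P, ∑ q ∈ Q, ∑ r ∈ R,
    Real.sqrt (X p q).card * Real.sqrt (Y p r).card * Real.sqrt (Z q r).card with hT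
  have hT0 : 0 ≤ T := Finset.sum_nonneg fun p _ => Finset.sum_nonneg fun q _ =>
    Finset.sum_nonneg fun r _ => by positivity
  have hG2 : (G.card : ℝ) ≤ m * T := by
    refine hG.trans ?_
    rw [hT, Finset.mul_sum]
    refine Finset.sum_le_sum fun p _ => ?_
    rw [Finset.mul_sum]
    refine Finset.sum_le_sum fun q _ => ?_
    rw [Finset.mul_sum]
    exact Finset.sum_le_sum fun r _ => hB p q r
  have hT2 : T ^ 2 ≤ 8 ^ n := by
    have h1 := lw P Q R (fun p q => Real.sqrt (X p q).card) (fun p r => Real.sqrt (Y p r).card)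
      (fun q r => Real.sqrt (Z q r).card)
    refine h1.trans ?_
    simp only [Real.sq_sqrt (Nat.cast_nonneg _)]
    have hx := hsum a b P Q
    have hy := hsum a' c P R
    have hz := hsum b' c' Q R
    have h8 : (8 : ℝ) ^ n = 2 ^ n * 2 ^ n * 2 ^ n := by
      rw [← mul_pow, ← mul_pow]; norm_num
    rw [h8]
    apply mul_le_mul
    · apply mul_le_mul hx hy
      · exact Finset.sum_nonneg fun p _ => Finset.sum_nonneg fun q _ => Nat.cast_nonneg _
      · positivity
    · exact hz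
    · exact Finset.sum_nonneg fun p _ => Finset.sum_nonneg fun q _ => Nat.cast_nonneg _
    · positivity
  calc (G.card : ℝ) ^ 2 ≤ (m * T) ^ 2 := pow_le_pow_left₀ (Nat.cast_nonneg _) hG2 2
    _ = m ^ 2 * T ^ 2 := by ring
    _ ≤ m ^ 2 * 8 ^ n := mul_le_mul_of_nonneg_left hT2 (by positivity)

end Pool.Agent.TH513.Cor
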