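import Pool.Agent.TH513.Cor.Base

set_option autoImplicit false

/-!
# Corner-free sets with labelled cells and comparisons
-/

namespace Pool.Agent.TH513.Cor

open Finset Pool.Agent.TH835.Cor

variable {n : ℕ}

/-- matching labels -/
def IsMatching (E : V n → V n → Prop) : Prop :=
  ∃ a a' b b' c c' : V n → ℕ, ∀ x y, E x y ↔ a x = a' y ∧ b x = b' (x + y) ∧ c y = c' (x + y)

/-- comparisons -/
def IsComparison (C : V n → V n → Prop) : Prop :=
  ∃ f g : V n → ℝ, (∀ x y, C x y ↔ f x ≤ g y) ∨ (∀ x y, C x y ↔ f x ≤ g (x + y)) ∨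
    (∀ x y, C x y ↔ f y ≤ g (x + y))

lemma dyadic (m : ℕ) : ∀ a b : ℕ, b < 2 ^ m →
    (a < b ↔ ∃ l, l < m ∧ a / 2 ^ l + 1 = b / 2 ^ l ∧ (b / 2 ^ l) % 2 = 1) := by
  induction m with
  | zero =>
    intro a b hb
    constructor
    · intro h; simp at hb; omega
    · rintro ⟨l, hl, -⟩; omega
  | succ m ih =>
    intro a b hb
    constructor
    · intro h
      have hb2 : b / 2 < 2 ^ m := by rw [pow_succ] at hb; omega
      by_cases h1 : a / 2 < b / 2
      · obtain ⟨l, hl, h2, h3⟩ := (ih (a / 2) (b / 2) hb2).1 h1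
        refine ⟨l + 1, by omega, ?_, ?_⟩
        · rw [Nat.div_div_eq_div_mul, Nat.div_div_eq_div_mul, ← pow_succ'] at h2
          exact h2
        · rw [Nat.div_div_eq_div_mul, ← pow_succ'] at h3
          exact h3
      · refine ⟨0, by omega, ?_, ?_⟩
        · rw [pow_zero, Nat.div_one, Nat.div_one]; omega
        · rw [pow_zero, Nat.div_one]; omega
    · rintro ⟨l, -, h2, -⟩
      by_contra h
      have := Nat.div_le_div_right (c := 2 ^ l) (not_lt.1 h)
      omega

lemma stair (f g : V n → ℝ) : ∃ u v : ℕ → V n → ℕ, ∀ x y,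
    f x ≤ g y ↔ ∃ l, l < n + 1 ∧ u l x = v l y := by
  classical
  let α : V n → ℕ := fun x => (univ.filter fun t : V n => f t < f x).card
  let β : V n → ℕ := fun y => (univ.filter fun t : V n => f t ≤ g y).card
  have hβ : ∀ y, β y < 2 ^ (n + 1) := by
    intro y
    have h1 : β y ≤ Fintype.card (V n) := Finset.card_le_univ _
    have h2 : Fintype.card (V n) = 2 ^ n := by rw [Fintype.card_fun, ZMod.card, Fintype.card_fin]
    rw [h2] at h1
    have h3 : 0 < 2 ^ n := by positivity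
    rw [pow_succ]
    omega
  have hαβ : ∀ x y, f x ≤ g y ↔ α x < β y := by
    intro x y
    constructor
    · intro h
      apply Finset.card_lt_card
      rw [Finset.ssubset_iff_of_subset]
      · exact ⟨x, mem_filter.2 ⟨mem_univ _, h⟩, fun hx => lt_irrefl _ (mem_filter.1 hx).2⟩
      · intro t ht
        exact mem_filter.2 ⟨mem_univ _, (mem_filter.1 ht).2.le.trans h⟩
    · intro h
      by_contra hlt
      have hlt := not_le.1 hlt
      have : β y ≤ α x := by
        apply Finset.card_le_card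
        intro t ht
        exact mem_filter.2 ⟨mem_univ _, (mem_filter.1 ht).2.trans_lt hlt⟩
      omega
  refine ⟨fun l x => α x / 2 ^ l + 1,
    fun l y => if (β y / 2 ^ l) % 2 = 1 then β y / 2 ^ l else 0, fun x y => ?_⟩
  rw [hαβ, dyadic (n + 1) (α x) (β y) (hβ y)]
  constructor
  · rintro ⟨l, hl, h1, h2⟩
    refine ⟨l, hl, ?_⟩
    show α x / 2 ^ l + 1 = if (β y / 2 ^ l) % 2 = 1 then β y / 2 ^ l else 0
    rw [if_pos h2]; exact h1
  · rintro ⟨l, hl, h1⟩
    have h1 : α x / 2 ^ l + 1 = if (β y / 2 ^ l) % 2 = 1 then β y / 2 ^ l else 0 := h1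
    split_ifs at h1 with h2
    · exact ⟨l, hl, h1, h2⟩

/-- a comparison is the union of `n + 1` matchings -/
lemma comparison {C : V n → V n → Prop} (hC : IsComparison C) :
    ∃ M : ℕ → V n → V n → Prop,
      (∀ l, ∀ E : V n → V n → Prop, IsMatching E → IsMatching fun x y => E x y ∧ M l x y) ∧
      ∀ x y, C x y ↔ ∃ l, l < n + 1 ∧ M l x y := by
  obtain ⟨f, g, h⟩ := hC
  obtain ⟨u, v, huv⟩ := stair f g
  rcases h with h | h | h
  · refine ⟨fun l x y => u l x = v l y, ?_, fun x y => by rw [h, huv]⟩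
    rintro l E ⟨a, a', b, b', c, c', hE⟩
    refine ⟨fun x => Nat.pair (a x) (u l x), fun y => Nat.pair (a' y) (v l y), b, b', c, c',
      fun x y => ?_⟩
    beta_reduce
    rw [hE, Nat.pair_eq_pair]
    tauto
  · refine ⟨fun l x y => u l x = v l (x + y), ?_, fun x y => by rw [h, huv]⟩
    rintro l E ⟨a, a', b, b', c, c', hE⟩
    refine ⟨a, a', fun x => Nat.pair (b x) (u l x), fun y => Nat.pair (b' y) (v l y), c, c',
      fun x y => ?_⟩
    beta_reduce
    rw [hE, Nat.pair_eq_pair]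
    tauto
  · refine ⟨fun l x y => u l y = v l (x + y), ?_, fun x y => by rw [h, huv]⟩
    rintro l E ⟨a, a', b, b', c, c', hE⟩
    refine ⟨a, a', b, b', fun x => Nat.pair (c x) (u l x), fun y => Nat.pair (c' y) (v l y),
      fun x y => ?_⟩
    beta_reduce
    rw [hE, Nat.pair_eq_pair]
    tauto

/-- the complement of a comparison is a comparison -/
lemma comparison_not {C : V n → V n → Prop} (hC : IsComparison C) :
    IsComparison fun x y => ¬ C x y := by
  classical
  obtain ⟨f, g, h⟩ := hC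
  let α : V n → ℕ := fun x => (univ.filter fun t : V n => f t < f x).card
  let β : V n → ℕ := fun y => (univ.filter fun t : V n => f t ≤ g y).card
  have hαβ : ∀ x y, f x ≤ g y ↔ α x < β y := by
    intro x y
    constructor
    · intro h
      apply Finset.card_lt_card
      rw [Finset.ssubset_iff_of_subset]
      · exact ⟨x, mem_filter.2 ⟨mem_univ _, h⟩, fun hx => lt_irrefl _ (mem_filter.1 hx).2⟩
      · intro t ht
        exact mem_filter.2 ⟨mem_univ _, (mem_filter.1 ht).2.le.trans h⟩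
    · intro h
      by_contra hlt
      have hlt := not_le.1 hlt
      have : β y ≤ α x := by
        apply Finset.card_le_card
        intro t ht
        exact mem_filter.2 ⟨mem_univ _, (mem_filter.1 ht).2.trans_lt hlt⟩
      omega
  have key : ∀ x y, ¬ f x ≤ g y ↔ -(α x : ℝ) ≤ -(β y : ℝ) := by
    intro x y
    rw [hαβ, not_lt, neg_le_neg_iff, Nat.cast_le]
  refine ⟨fun x => -(α x : ℝ), fun y => -(β y : ℝ), ?_⟩
  rcases h with h | h | h
  · exact Or.inl fun x y => by beta_reduce; rw [h, key]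
  · exact Or.inr (Or.inl fun x y => by beta_reduce; rw [h, key])
  · exact Or.inr (Or.inr fun x y => by beta_reduce; rw [h, key])

/-- decision trees whose queries are relations `C x y` -/
inductive Tree (n : ℕ) : Type
  | leaf (b : Bool) : Tree n
  | node (C : V n → V n → Prop) (yes no : Tree n) : Tree n

/-- the depth of a tree -/
def Tree.depth : Tree n → ℕ
  | .leaf _ => 0
  | .node _ s t => max s.depth t.depth + 1

/-- all queries are comparisons -/
def Tree.Comparisons : Tree n → Prop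
  | .leaf _ => True
  | .node C s t => IsComparison C ∧ s.Comparisons ∧ t.Comparisons

/-- the tree accepts `(x, y)` -/
def Tree.Accepts : Tree n → V n → V n → Prop
  | .leaf b, _, _ => b = true
  | .node C s t, x, y => (C x y ∧ s.Accepts x y) ∨ (¬ C x y ∧ t.Accepts x y)

/-- one family, no comparisons -/
lemma family_zero {S r : ℕ} {K : Type} [Field K] [CharP K 2] {A : Finset (V n × V n)}
    (hA : CornerFree A) (u v : Fin S → Fin r → V n → K) (w : Fin S → V n → K)
    {E : V n → V n → Prop} (hE : IsMatching E) (G : Finset (V n × V n)) (hGA : G ⊆ A)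
    (hG : ∀ x y, (x, y) ∈ G ↔
      (∑ i, (∑ j, u i j x * v i j y) * w i (x + y) ≠ 0 ∧ E x y))
    (m : ℝ) (hm : 0 ≤ m) (hm4 : (S : ℝ) * (2 * r + 1) * (54 : ℝ) ^ ((n : ℝ) / 3) ≤ m ^ 4) :
    (G.card : ℝ) ≤ m * Real.sqrt (8 ^ n) := by
  classical
  obtain ⟨a, a', b, b', c, c', hE⟩ := hE
  have h1 : (G.card : ℝ) ^ 2 ≤ m ^ 2 * 8 ^ n := by
    refine cells G a b a' c b' c' m hm (fun x y hxy => (hE x y).1 ((hG x y).1 hxy).2) ?_
    intro p q s
    set B := G.filter fun t => a t.1 = p ∧ b t.1 = q ∧ c t.2 = s with hB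
    have hBA : B ⊆ A := (Finset.filter_subset _ _).trans hGA
    have hBc : CornerFree B := by
      rintro x y z hz ⟨h1, h2, h3⟩
      exact hA x y z hz ⟨hBA h1, hBA h2, hBA h3⟩
    refine (one_cell B hBc (fun i j x => if a x = p ∧ b x = q then u i j x else 0)
      (fun i j y => if a' y = p ∧ c y = s then v i j y else 0)
      (fun i t => if b' t = q ∧ c' t = s then w i t else 0) ?_).trans hm4
    intro x y
    have key : ∑ i, (∑ j, (if a x = p ∧ b x = q then u i j x else 0) *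
        (if a' y = p ∧ c y = s then v i j y else 0)) *
        (if b' (x + y) = q ∧ c' (x + y) = s then w i (x + y) else 0) =
        if (a x = p ∧ b x = q) ∧ (a' y = p ∧ c y = s) ∧ (b' (x + y) = q ∧ c' (x + y) = s) then
          ∑ i, (∑ j, u i j x * v i j y) * w i (x + y) else 0 := by
      by_cases h1 : a x = p ∧ b x = q
      · by_cases h2 : a' y = p ∧ c y = s
        · by_cases h3 : b' (x + y) = q ∧ c' (x + y) = s
          · rw [if_pos ⟨h1, h2, h3⟩]
            simp only [if_pos h1, if_pos h2, if_pos h3]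
          · rw [if_neg (fun h => h3 h.2.2)]
            simp only [if_neg h3, mul_zero, Finset.sum_const_zero]
        · rw [if_neg (fun h => h2 h.2.1)]
          simp only [if_neg h2, mul_zero, Finset.sum_const_zero, zero_mul]
      · rw [if_neg (fun h => h1 h.1)]
        simp only [if_neg h1, zero_mul, Finset.sum_const_zero]
    rw [key]
    constructor
    · intro h
      obtain ⟨h1, h2, h3, h4⟩ := mem_filter.1 h
      obtain ⟨h5, h6⟩ := (hG x y).1 h1
      obtain ⟨h7, h8, h9⟩ := (hE x y).1 h6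
      rw [if_pos]
      · exact h5
      · exact ⟨⟨h2, h3⟩, ⟨h7 ▸ h2, h4⟩, ⟨h8 ▸ h3, h9 ▸ h4⟩⟩
    · intro h
      have hcond : (a x = p ∧ b x = q) ∧ (a' y = p ∧ c y = s) ∧
          (b' (x + y) = q ∧ c' (x + y) = s) := by
        by_contra hn
        rw [if_neg hn] at h
        exact h rfl
      rw [if_pos hcond] at h
      obtain ⟨⟨h1, h2⟩, ⟨h3, h4⟩, ⟨h5, h6⟩⟩ := hcond
      refine mem_filter.2 ⟨(hG x y).2 ⟨h, (hE x y).2 ⟨?_, ?_, ?_⟩⟩, h1, h2, h4⟩
      · rw [h1, h3]
      · rw [h2, h5]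
      · rw [h4, h6]
  have h2 : (m * Real.sqrt (8 ^ n)) ^ 2 = m ^ 2 * 8 ^ n := by
    rw [mul_pow, Real.sq_sqrt (by positivity)]
  rw [← h2] at h1
  exact le_of_pow_le_pow_left₀ (by norm_num) (by positivity) h1

/-- one family -/
lemma family {S r : ℕ} {K : Type} [Field K] [CharP K 2] {A : Finset (V n × V n)}
    (hA : CornerFree A) (u v : Fin S → Fin r → V n → K) (w : Fin S → V n → K)
    (m : ℝ) (hm : 0 ≤ m) (hm4 : (S : ℝ) * (2 * r + 1) * (54 : ℝ) ^ ((n : ℝ) / 3) ≤ m ^ 4)
    (T : Tree n) : T.Comparisons → ∀ (E : V n → V n → Prop) (_ : IsMatching E)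
      (G : Finset (V n × V n)) (_ : G ⊆ A)
      (_ : ∀ x y, (x, y) ∈ G ↔
        (∑ i, (∑ j, u i j x * v i j y) * w i (x + y) ≠ 0 ∧ E x y ∧ T.Accepts x y)),
      (G.card : ℝ) ≤ (2 * (n + 1)) ^ T.depth * (m * Real.sqrt (8 ^ n)) := by
  classical
  have hb0 : 0 ≤ m * Real.sqrt (8 ^ n) := by positivity
  induction T with
  | leaf b =>
    intro _ E hE G hGA hG
    rw [Tree.depth, pow_zero, one_mul]
    cases b with
    | true =>
      refine family_zero hA u v w hE G hGA (fun x y => ?_) m hm hm4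
      rw [hG]
      constructor
      · rintro ⟨h1, h2, -⟩; exact ⟨h1, h2⟩
      · rintro ⟨h1, h2⟩; exact ⟨h1, h2, rfl⟩
    | false =>
      have : G = ∅ := by
        rw [Finset.eq_empty_iff_forall_notMem]
        rintro ⟨x, y⟩ hxy
        have h := ((hG x y).1 hxy).2.2
        exact absurd h (by simp [Tree.Accepts])
      rw [this, Finset.card_empty, Nat.cast_zero]
      exact hb0
  | node C s t ihs iht =>
    rintro ⟨hC, hs, ht⟩ E hE G hGA hG
    -- one branch
    have branch : ∀ (C' : V n → V n → Prop) (_ : IsComparison C') (T' : Tree n) (_ : T'.depth ≤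
        max s.depth t.depth)
        (_ : ∀ (E : V n → V n → Prop) (_ : IsMatching E)
          (G : Finset (V n × V n)) (_ : G ⊆ A)
          (_ : ∀ x y, (x, y) ∈ G ↔
            (∑ i, (∑ j, u i j x * v i j y) * w i (x + y) ≠ 0 ∧ E x y ∧ T'.Accepts x y)),
          (G.card : ℝ) ≤ (2 * (n + 1)) ^ T'.depth * (m * Real.sqrt (8 ^ n)))
        (H : Finset (V n × V n)) (_ : H ⊆ A)
        (_ : ∀ x y, (x, y) ∈ H ↔
          (∑ i, (∑ j, u i j x * v i j y) * w i (x + y) ≠ 0 ∧ E x y ∧ C' x y ∧ T'.Accepts x y)),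
        (H.card : ℝ) ≤ (n + 1) * ((2 * (n + 1)) ^ max s.depth t.depth *
          (m * Real.sqrt (8 ^ n))) := by
      intro C' hC' T' hT' ih H hHA hH
      obtain ⟨M, hM1, hM2⟩ := comparison hC'
      set Hl : ℕ → Finset (V n × V n) := fun l => H.filter fun t => M l t.1 t.2 with hHl
      have h1 : H ⊆ (range (n + 1)).biUnion Hl := by
        intro q hq
        obtain ⟨-, -, h3, -⟩ := (hH q.1 q.2).1 hq
        obtain ⟨l, hl, h4⟩ := (hM2 q.1 q.2).1 h3
        exact mem_biUnion.2 ⟨l, mem_range.2 hl, mem_filter.2 ⟨hq, h4⟩⟩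
      have h2 : ∀ l ∈ range (n + 1), ((Hl l).card : ℝ) ≤
          (2 * (n + 1)) ^ max s.depth t.depth * (m * Real.sqrt (8 ^ n)) := by
        intro l hl
        refine (ih (fun x y => E x y ∧ M l x y) (hM1 l E hE) (Hl l)
          ((Finset.filter_subset _ _).trans hHA) (fun x y => ?_)).trans ?_
        · rw [hHl, mem_filter, hH]
          constructor
          · rintro ⟨⟨h3, h4, -, h5⟩, h6⟩
            exact ⟨h3, ⟨h4, h6⟩, h5⟩
          · rintro ⟨h3, ⟨h4, h6⟩, h5⟩
            exact ⟨⟨h3, h4, (hM2 x y).2 ⟨l, mem_range.1 hl, h6⟩, h5⟩, h6⟩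
        · refine mul_le_mul_of_nonneg_right ?_ hb0
          apply pow_le_pow_right₀ _ hT'
          have : (0 : ℝ) ≤ n := Nat.cast_nonneg n
          linarith
      have h3 : (H.card : ℝ) ≤ ∑ l ∈ range (n + 1), ((Hl l).card : ℝ) := by
        exact_mod_cast (Finset.card_le_card h1).trans Finset.card_biUnion_le
      refine h3.trans ((Finset.sum_le_sum h2).trans ?_)
      rw [Finset.sum_const, card_range, nsmul_eq_mul]
      push_cast
      exact le_rfl
    set G1 := G.filter fun q => C q.1 q.2 with hG1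
    set G2 := G.filter fun q => ¬ C q.1 q.2 with hG2
    have hsum : G.card = G1.card + G2.card := (Finset.card_filter_add_card_filter_not _).symm
    have b1 := branch C hC s (le_max_left _ _) (ihs hs) G1
      ((Finset.filter_subset _ _).trans hGA) (fun x y => by
        rw [hG1, mem_filter, hG, Tree.Accepts]; tauto)
    have b2 := branch (fun x y => ¬ C x y) (comparison_not hC) t (le_max_right _ _) (iht ht) G2
      ((Finset.filter_subset _ _).trans hGA) (fun x y => by
        rw [hG2, mem_filter, hG, Tree.Accepts]; tauto)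
    rw [hsum, Tree.depth, pow_succ]
    push_cast
    calc ((G1.card : ℝ) + G2.card) ≤ (n + 1) * ((2 * (n + 1)) ^ max s.depth t.depth *
          (m * Real.sqrt (8 ^ n))) + (n + 1) * ((2 * (n + 1)) ^ max s.depth t.depth *
          (m * Real.sqrt (8 ^ n))) := add_le_add b1 b2
      _ = (2 * (n + 1)) ^ max s.depth t.depth * (2 * (n + 1)) * (m * Real.sqrt (8 ^ n)) := by ring

lemma base_ineq : (54 : ℝ) ^ ((1 : ℝ) / 12) * (8 : ℝ) ^ ((1 : ℝ) / 2) ≤ (4 : ℝ) ^ (0.99 : ℝ) := by
  refine le_of_pow_le_pow_left₀ (n := 300) (by norm_num) (by positivity) ?_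
  rw [mul_pow, ← Real.rpow_natCast ((54 : ℝ) ^ ((1 : ℝ) / 12)), ← Real.rpow_mul (by norm_num),
    ← Real.rpow_natCast ((8 : ℝ) ^ ((1 : ℝ) / 2)), ← Real.rpow_mul (by norm_num),
    ← Real.rpow_natCast ((4 : ℝ) ^ (0.99 : ℝ)), ← Real.rpow_mul (by norm_num)]
  rw [show (1 : ℝ) / 12 * ((300 : ℕ) : ℝ) = ((25 : ℕ) : ℝ) by norm_num,
    show (1 : ℝ) / 2 * ((300 : ℕ) : ℝ) = ((150 : ℕ) : ℝ) by norm_num,
    show (0.99 : ℝ) * ((300 : ℕ) : ℝ) = ((297 : ℕ) : ℝ) by norm_num]
  rw [Real.rpow_natCast, Real.rpow_natCast, Real.rpow_natCast]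
  have h8 : (8 : ℝ) ^ 150 = 2 ^ 450 := by
    rw [show (8 : ℝ) = 2 ^ 3 by norm_num, ← pow_mul]
  have h4 : (4 : ℝ) ^ 297 = 2 ^ 144 * 2 ^ 450 := by
    rw [show (4 : ℝ) = 2 ^ 2 by norm_num, ← pow_mul, ← pow_add]
  rw [h8, h4]
  exact mul_le_mul_of_nonneg_right (by norm_num) (by positivity)

/-- the constant -/
lemma const (n : ℕ) (D : ℝ) (hD : 0 ≤ D) :
    (D * (54 : ℝ) ^ ((n : ℝ) / 3)) ^ ((1 : ℝ) / 4) * Real.sqrt (8 ^ n) ≤
      D ^ ((1 : ℝ) / 4) * (4 : ℝ) ^ ((1 - 0.01 : ℝ) * n) := by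
  rw [Real.mul_rpow hD (by positivity), mul_assoc]
  refine mul_le_mul_of_nonneg_left ?_ (by positivity)
  have e1 : ((54 : ℝ) ^ ((n : ℝ) / 3)) ^ ((1 : ℝ) / 4) = ((54 : ℝ) ^ ((1 : ℝ) / 12)) ^ n := by
    rw [← Real.rpow_mul (by norm_num), ← Real.rpow_natCast, ← Real.rpow_mul (by norm_num)]
    congr 1
    ring
  have e2 : Real.sqrt (8 ^ n) = ((8 : ℝ) ^ ((1 : ℝ) / 2)) ^ n := by
    rw [Real.sqrt_eq_rpow, ← Real.rpow_natCast, ← Real.rpow_natCast, ← Real.rpow_mul (by norm_num),
      ← Real.rpow_mul (by norm_num)]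
    congr 1
    ring
  have e3 : (4 : ℝ) ^ ((1 - 0.01 : ℝ) * n) = ((4 : ℝ) ^ (0.99 : ℝ)) ^ n := by
    rw [← Real.rpow_natCast, ← Real.rpow_mul (by norm_num)]
    congr 1
    norm_num
  rw [e1, e2, e3, ← mul_pow]
  exact pow_le_pow_left₀ (by positivity) base_ineq n

end Pool.Agent.TH513.Cor
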